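import Pool.Agent.Helper92_SBG.Rd

/-!
LAT: the lattice inequalities for `l1 ≠ 0`.
-/

namespace Pool.Agent.SBG.H76

open Pool.Agent.SBG Sy

section forms

variable {k : ℕ}

/-- The combination of the two forms on integer vectors. -/
def lz (l0 l1 : ℤ) (x y : V k) : ℤ := l0 * bf0 x y + l1 * bf1 x y

lemma lz_add_left (l0 l1 : ℤ) (x x' y : V k) :
    lz l0 l1 (x + x') y = lz l0 l1 x y + lz l0 l1 x' y := by
  simp only [lz, bf0_add_left, bf1_add_left]; ring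

lemma lz_add_right (l0 l1 : ℤ) (x y y' : V k) :
    lz l0 l1 x (y + y') = lz l0 l1 x y + lz l0 l1 x y' := by
  simp only [lz, bf0_add_right, bf1_add_right]; ring

lemma lz_zero_left (l0 l1 : ℤ) (y : V k) : lz l0 l1 0 y = 0 := by
  have h := lz_add_left l0 l1 0 0 y
  rw [add_zero] at h; linarith

lemma lz_zero_right (l0 l1 : ℤ) (x : V k) : lz l0 l1 x 0 = 0 := by
  have h := lz_add_right l0 l1 x 0 0
  rw [add_zero] at h; linarith

lemma lz_neg_left (l0 l1 : ℤ) (x y : V k) : lz l0 l1 (-x) y = - lz l0 l1 x y := by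
  have h := lz_add_left l0 l1 (-x) x y
  rw [neg_add_cancel, lz_zero_left] at h; linarith

lemma lz_neg_right (l0 l1 : ℤ) (x y : V k) : lz l0 l1 x (-y) = - lz l0 l1 x y := by
  have h := lz_add_right l0 l1 x (-y) y
  rw [neg_add_cancel, lz_zero_right] at h; linarith

/-- A form which vanishes on generators vanishes on the generated group. -/
lemma lz_closure (l0 l1 : ℤ) (S : Set (V k)) (h : ∀ x ∈ S, ∀ y ∈ S, lz l0 l1 x y = 0) :
    ∀ x ∈ AddSubgroup.closure S, ∀ y ∈ AddSubgroup.closure S, lz l0 l1 x y = 0 := by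
  intro x hx
  refine AddSubgroup.closure_induction
    (p := fun x _ => ∀ y ∈ AddSubgroup.closure S, lz l0 l1 x y = 0) ?_ ?_ ?_ ?_ hx
  · intro x hx y hy
    refine AddSubgroup.closure_induction (p := fun y _ => lz l0 l1 x y = 0) ?_ ?_ ?_ ?_ hy
    · intro y hy; exact h x hx y hy
    · exact lz_zero_right l0 l1 x
    · intro y y' _ _ e e'; rw [lz_add_right, e, e', add_zero]
    · intro y _ e; rw [lz_neg_right, e, neg_zero]
  · intro y _; exact lz_zero_left l0 l1 y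
  · intro x x' _ _ e e' y hy; rw [lz_add_left, e y hy, e' y hy, add_zero]
  · intro x _ e y hy; rw [lz_neg_left, e y hy, neg_zero]

/-- The combination of the two forms on rational vectors. -/
def lq (l0 l1 : ℚ) (x y : Ix k → ℚ) : ℚ := l0 * bf0 x y + l1 * bf1 x y

lemma lq_add_left (l0 l1 : ℚ) (x x' y : Ix k → ℚ) :
    lq l0 l1 (x + x') y = lq l0 l1 x y + lq l0 l1 x' y := by
  simp only [lq, bf0_add_left, bf1_add_left]; ring

lemma lq_add_right (l0 l1 : ℚ) (x y y' : Ix k → ℚ) :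
    lq l0 l1 x (y + y') = lq l0 l1 x y + lq l0 l1 x y' := by
  simp only [lq, bf0_add_right, bf1_add_right]; ring

lemma lq_smul_left (l0 l1 a : ℚ) (x y : Ix k → ℚ) : lq l0 l1 (a • x) y = a * lq l0 l1 x y := by
  simp only [lq, bf0, bf1, be0, be1, Pi.smul_apply, smul_eq_mul, mul_add, Finset.mul_sum,
    ← Finset.sum_add_distrib]
  refine Finset.sum_congr rfl fun i _ => ?_
  ring

lemma lq_smul_right (l0 l1 a : ℚ) (x y : Ix k → ℚ) : lq l0 l1 x (a • y) = a * lq l0 l1 x y := by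
  simp only [lq, bf0, bf1, be0, be1, Pi.smul_apply, smul_eq_mul, mul_add, Finset.mul_sum,
    ← Finset.sum_add_distrib]
  refine Finset.sum_congr rfl fun i _ => ?_
  ring

lemma lq_zero_left (l0 l1 : ℚ) (y : Ix k → ℚ) : lq l0 l1 0 y = 0 := by
  have h := lq_smul_left l0 l1 0 0 y
  rwa [zero_smul, zero_mul] at h

lemma lq_zero_right (l0 l1 : ℚ) (x : Ix k → ℚ) : lq l0 l1 x 0 = 0 := by
  have h := lq_smul_right l0 l1 0 x 0
  rwa [zero_smul, zero_mul] at h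

lemma lq_castv (l0 l1 : ℤ) (x y : V k) :
    lq (l0 : ℚ) (l1 : ℚ) (castv x) (castv y) = (lz l0 l1 x y : ℚ) := by
  simp only [lq, lz, bf0, bf1, be0, be1, castv]
  push_cast
  rfl

/-- The rational span of an isotropic lattice is isotropic. -/
lemma iso_LQ (l0 l1 : ℤ) (L : AddSubgroup (V k)) (h : ∀ x ∈ L, ∀ y ∈ L, lz l0 l1 x y = 0) :
    Iso (l0 : ℚ) (l1 : ℚ) (LQ L) := by
  intro x hx
  refine Submodule.span_induction
    (p := fun x _ => ∀ y ∈ LQ L, lq (l0 : ℚ) (l1 : ℚ) x y = 0) ?_ ?_ ?_ ?_ hx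
  · rintro _ ⟨x, hx, rfl⟩ y hy
    refine Submodule.span_induction
      (p := fun y _ => lq (l0 : ℚ) (l1 : ℚ) (castv x) y = 0) ?_ ?_ ?_ ?_ hy
    · rintro _ ⟨y, hy, rfl⟩
      rw [lq_castv, h x hx y hy, Int.cast_zero]
    · exact lq_zero_right _ _ _
    · intro y y' _ _ e e'; rw [lq_add_right, e, e', add_zero]
    · intro a y _ e; rw [lq_smul_right, e, mul_zero]
  · intro y _; exact lq_zero_left _ _ _
  · intro x x' _ _ e e' y hy; rw [lq_add_left, e y hy, e' y hy, add_zero]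
  · intro a x _ e y hy; rw [lq_smul_left, e y hy, mul_zero]

end forms

section closure

variable {k : ℕ}

/-- The map `x ↦ (pv x, l0 z0 + l1 z1)`. -/
def ph (l0 l1 : ℤ) (x : W k) : (Ix k → ℤ) × ℤ :=
  (pv x, l0 * pz x 0 + l1 * pz x 1)

lemma ph_add (l0 l1 : ℤ) (x y : W k) : ph l0 l1 (x + y) = ph l0 l1 x + ph l0 l1 y := by
  apply Prod.ext
  · rfl
  · simp only [ph, pz_add, Pi.add_apply, Prod.snd_add]; ring

lemma ph_neg (l0 l1 : ℤ) (x : W k) : ph l0 l1 (-x) = - ph l0 l1 x := by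
  apply Prod.ext
  · rfl
  · simp only [ph, pz_neg, Pi.neg_apply, Prod.snd_neg]; ring

lemma ph_Bf (l0 l1 : ℤ) (x y : W k) (h : lz l0 l1 (pv x) (pv y) = 0) :
    ph l0 l1 (Bf x y) = 0 := by
  apply Prod.ext
  · rfl
  · simp only [ph, pz_Bf, Prod.snd_zero]
    exact h

/-- The closure of the image of `X`. -/
lemma mem_closure_iff (l0 l1 : ℤ) (X : Finset (W k))
    (h : ∀ x ∈ X, ∀ y ∈ X, lz l0 l1 (pv x) (pv y) = 0) (a : (Ix k → ℤ) × ℤ) :
    a ∈ AddSubgroup.closure (ph l0 l1 '' (X : Set (W k))) ↔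
      ∃ g ∈ HX X, ph l0 l1 g.x = a := by
  have hz : ∀ x ∈ LM (HX X), ∀ y ∈ LM (HX X), lz l0 l1 x y = 0 := by
    rw [LM_HX]
    apply lz_closure
    rintro _ ⟨x, hx, rfl⟩ _ ⟨y, hy, rfl⟩
    exact h x hx y hy
  have hm : ∀ g h : Gp k, g ∈ HX X → h ∈ HX X →
      ph l0 l1 (g * h).x = ph l0 l1 g.x + ph l0 l1 h.x := by
    intro g h hg hh
    rw [Gp.mul_x, HX_m hg, tp_zero, ph_add, ph_add, ph_Bf, add_zero]
    exact hz _ ⟨g, hg, HX_m hg, rfl⟩ _ ⟨h, hh, HX_m hh, rfl⟩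
  have hi : ∀ g : Gp k, g ∈ HX X → ph l0 l1 (g⁻¹).x = - ph l0 l1 g.x := by
    intro g hg
    rw [Gp.inv_x, HX_m hg, neg_zero, tp_zero, ph_neg]
  have h0 : ph l0 l1 (0 : W k) = 0 := by
    apply Prod.ext
    · rfl
    · simp [ph]
  constructor
  · intro ha
    refine AddSubgroup.closure_induction (p := fun a _ => ∃ g ∈ HX X, ph l0 l1 g.x = a)
      ?_ ?_ ?_ ?_ ha
    · rintro _ ⟨x, hx, rfl⟩
      exact ⟨⟨0, x⟩, mem_HX hx, rfl⟩
    · exact ⟨1, (HX X).one_mem, h0⟩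
    · rintro _ _ _ _ ⟨g, hg, rfl⟩ ⟨h, hh, rfl⟩
      exact ⟨g * h, (HX X).mul_mem hg hh, hm g h hg hh⟩
    · rintro _ _ ⟨g, hg, rfl⟩
      exact ⟨g⁻¹, (HX X).inv_mem hg, hi g hg⟩
  · rintro ⟨g, hg, rfl⟩
    refine Subgroup.closure_induction
      (p := fun g _ => ph l0 l1 g.x ∈ AddSubgroup.closure (ph l0 l1 '' (X : Set (W k))))
      ?_ ?_ ?_ ?_ hg
    · rintro _ ⟨x, hx, rfl⟩
      exact AddSubgroup.subset_closure ⟨x, hx, rfl⟩
    · change ph l0 l1 (0 : W k) ∈ _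
      rw [h0]; exact AddSubgroup.zero_mem _
    · intro g h hg hh e e'
      change ph l0 l1 (g * h).x ∈ _
      rw [hm g h hg hh]
      exact AddSubgroup.add_mem _ e e'
    · intro g hg e
      change ph l0 l1 (g⁻¹).x ∈ _
      rw [hi g hg]
      exact AddSubgroup.neg_mem _ e

end closure

/-- Divisibility of the coordinates of integer vectors in the radical. -/
lemma rad_dvd {k : ℕ} (l0 l1 : ℤ) (hc : IsCoprime l0 l1) (x : Ix k → ℤ)
    (hx : castv x ∈ Rad k (l0 : ℚ) (l1 : ℚ)) (c : Ix k) :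
    (¬ (isS b3 c ∨ isS c3 c) → (l1 ^ 2 : ℤ) ∣ x c) ∧
    (¬ (isS a3 c ∨ isS b3 c) → (l0 ^ 2 : ℤ) ∣ x c) := by
  obtain ⟨t, ht⟩ := hx
  obtain ⟨u, v, huv⟩ := hc.pow (m := 2) (n := 2)
  have key : ∀ i : Fin k, ∃ s : ℤ, x (Sum.inl (i, a3)) = s * l1 ^ 2 ∧
      x (Sum.inl (i, c3)) = s * l0 ^ 2 := by
    intro i
    have ea : (x (Sum.inl (i, a3)) : ℚ) = t i * (l1 : ℚ) ^ 2 := congrFun ht (Sum.inl (i, a3))
    have ec : (x (Sum.inl (i, c3)) : ℚ) = t i * (l0 : ℚ) ^ 2 := congrFun ht (Sum.inl (i, c3))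
    have huv' : (u : ℚ) * (l0 : ℚ) ^ 2 + v * (l1 : ℚ) ^ 2 = 1 := by exact_mod_cast huv
    have es : ((u * x (Sum.inl (i, c3)) + v * x (Sum.inl (i, a3)) : ℤ) : ℚ) = t i := by
      push_cast
      rw [ea, ec]
      linear_combination (t i) * huv'
    refine ⟨u * x (Sum.inl (i, c3)) + v * x (Sum.inl (i, a3)), ?_, ?_⟩
    · have : ((x (Sum.inl (i, a3)) : ℤ) : ℚ) =
          (((u * x (Sum.inl (i, c3)) + v * x (Sum.inl (i, a3))) * l1 ^ 2 : ℤ) : ℚ) := by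
        rw [Int.cast_mul, es, ea]; push_cast; rfl
      exact_mod_cast this
    · have : ((x (Sum.inl (i, c3)) : ℤ) : ℚ) =
          (((u * x (Sum.inl (i, c3)) + v * x (Sum.inl (i, a3))) * l0 ^ 2 : ℤ) : ℚ) := by
        rw [Int.cast_mul, es, ec]; push_cast; rfl
      exact_mod_cast this
  rcases c with ⟨i, s⟩ | j
  · obtain ⟨s0, ha, hc3⟩ := key i
    have hz : s ≠ a3 → s ≠ b3 → s ≠ c3 → x (Sum.inl (i, s)) = 0 := by
      intro h1 h2 h3
      have e : (x (Sum.inl (i, s)) : ℚ) = radv (l0 : ℚ) (l1 : ℚ) t (Sum.inl (i, s)) :=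
        congrFun ht (Sum.inl (i, s))
      have e2 : radv (l0 : ℚ) (l1 : ℚ) t (Sum.inl (i, s)) = 0 := by
        cases s <;> first | rfl | exact absurd rfl h1 | exact absurd rfl h2 | exact absurd rfl h3
      rw [e2] at e
      exact_mod_cast e
    constructor
    · intro hn
      by_cases h1 : s = a3
      · rw [h1, ha]; exact Dvd.intro_left _ rfl
      · have h2 : s ≠ b3 := fun h => hn (Or.inl ⟨i, by rw [h]⟩)
        have h3 : s ≠ c3 := fun h => hn (Or.inr ⟨i, by rw [h]⟩)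
        rw [hz h1 h2 h3]; exact dvd_zero _
    · intro hn
      by_cases h1 : s = c3
      · rw [h1, hc3]; exact Dvd.intro_left _ rfl
      · have h2 : s ≠ b3 := fun h => hn (Or.inr ⟨i, by rw [h]⟩)
        have h3 : s ≠ a3 := fun h => hn (Or.inl ⟨i, by rw [h]⟩)
        rw [hz h3 h2 h1]; exact dvd_zero _
  · have e : (x (Sum.inr j) : ℚ) = 0 := congrFun ht (Sum.inr j)
    have e2 : x (Sum.inr j) = 0 := by exact_mod_cast e
    rw [e2]
    exact ⟨fun _ => dvd_zero _, fun _ => dvd_zero _⟩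

/-- Size of the product of the bounds. -/
lemma prod_bound {k : ℕ} (A n : ℕ) (I : Finset (Ix k)) :
    (I.card + 1).factorial * (∏ c ∈ I, A * n ^ (wtI c)) ≤
      (19 * k + 4).factorial * (A + 1) ^ (19 * k + 3) * n ^ (∑ c ∈ I, wtI c) := by
  have hcard : Fintype.card (Ix k) = 19 * k + 3 := by
    have h19 : Fintype.card Sy = 19 := rfl
    rw [Fintype.card_sum, Fintype.card_prod, Fintype.card_fin, Fintype.card_fin, h19]
    ring
  have hI : I.card ≤ 19 * k + 3 := by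
    rw [← hcard]; exact Finset.card_le_univ I
  rw [Finset.prod_mul_distrib, Finset.prod_const, Finset.prod_pow_eq_pow_sum]
  have h1 : (I.card + 1).factorial ≤ (19 * k + 4).factorial :=
    Nat.factorial_le (by omega)
  have h2 : A ^ I.card ≤ (A + 1) ^ (19 * k + 3) :=
    (Nat.pow_le_pow_left (Nat.le_succ A) _).trans (Nat.pow_le_pow_right (Nat.succ_pos A) hI)
  calc (I.card + 1).factorial * (A ^ I.card * n ^ (∑ c ∈ I, wtI c))
      = (I.card + 1).factorial * A ^ I.card * n ^ (∑ c ∈ I, wtI c) := by ring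
    _ ≤ _ := Nat.mul_le_mul_right _ (Nat.mul_le_mul h1 h2)

theorem lat (h1 : StrStmt) (h2 : WgtStmt) : LatStmt := by
  classical
  intro k A
  refine ⟨(19 * k + 4).factorial * (A + 1) ^ (19 * k + 3) * (2 * A), ?_⟩
  intro n hn X hX l0 l1 hc hl1 hiso D hD hLam
  have hiso' : ∀ x ∈ X, ∀ y ∈ X, lz l0 l1 (pv x) (pv y) = 0 := fun x hx y hy => hiso x hx y hy
  have hz : ∀ x ∈ LM (HX X), ∀ y ∈ LM (HX X), lz l0 l1 x y = 0 := by
    rw [LM_HX]
    apply lz_closure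
    rintro _ ⟨x, hx, rfl⟩ _ ⟨y, hy, rfl⟩
    exact hiso' x hx y hy
  have hI := iso_LQ l0 l1 (LM (HX X)) hz
  have hl1' : (l1 : ℚ) ≠ 0 := by exact_mod_cast hl1
  obtain ⟨δ, ⟨I1, c1, i1, w1⟩, ⟨I2, c2, i2, w2, j2⟩, hI3, hk1, hk2⟩ :=
    h2 k (l0 : ℚ) (l1 : ℚ) (LQ (LM (HX X))) hI hl1'
  -- the data of the main inequality
  have hb : ∀ x ∈ X.image (ph l0 l1), (∀ c, |x.1 c| ≤ ((A * n ^ (wtI c) : ℕ) : ℤ)) ∧
      |x.2| ≤ ((2 * A * n ^ 5 * max l0.natAbs l1.natAbs : ℕ) : ℤ) := by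
    intro x hx
    obtain ⟨y, hy, rfl⟩ := Finset.mem_image.mp hx
    constructor
    · intro c
      have := hX y hy (Sum.inl c)
      push_cast
      exact this
    · have e0 : |pz y 0| ≤ (A : ℤ) * (n : ℤ) ^ 5 := hX y hy (Sum.inr 0)
      have e1 : |pz y 1| ≤ (A : ℤ) * (n : ℤ) ^ 5 := hX y hy (Sum.inr 1)
      have m0 : |l0| ≤ ((max l0.natAbs l1.natAbs : ℕ) : ℤ) := by
        rw [Int.abs_eq_natAbs]; exact_mod_cast le_max_left _ _
      have m1 : |l1| ≤ ((max l0.natAbs l1.natAbs : ℕ) : ℤ) := by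
        rw [Int.abs_eq_natAbs l1]; exact_mod_cast le_max_right _ _
      obtain ⟨M, hM⟩ : ∃ M : ℕ, M = max l0.natAbs l1.natAbs := ⟨_, rfl⟩
      rw [← hM] at m0 m1 ⊢
      change |l0 * pz y 0 + l1 * pz y 1| ≤ _
      have t0 : |l0 * pz y 0| ≤ (M : ℤ) * ((A : ℤ) * (n : ℤ) ^ 5) := by
        rw [abs_mul]; exact mul_le_mul m0 e0 (abs_nonneg _) (by positivity)
      have t1 : |l1 * pz y 1| ≤ (M : ℤ) * ((A : ℤ) * (n : ℤ) ^ 5) := by
        rw [abs_mul]; exact mul_le_mul m1 e1 (abs_nonneg _) (by positivity)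
      refine (abs_add_le _ _).trans ?_
      push_cast
      linarith
  have hcl : ∀ t : ℤ, ((0 : Ix k → ℤ), t) ∈
      AddSubgroup.closure ((X.image (ph l0 l1) : Finset _) : Set ((Ix k → ℤ) × ℤ)) ↔
      (D : ℤ) ∣ t := by
    intro t
    rw [← hLam t, Finset.coe_image, mem_closure_iff l0 l1 X hiso']
    constructor
    · rintro ⟨g, hg, e⟩
      have e1 : pv g.x = 0 := congrArg Prod.fst e
      have e2 : l0 * pz g.x 0 + l1 * pz g.x 1 = t := congrArg Prod.snd e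
      refine ⟨pz g.x, ?_, e2⟩
      rw [mem_Lam_iff, ← eq_zin_of_pv e1, ← Gp.eta0 (HX_m hg)]
      exact hg
    · rintro ⟨z, hz', e⟩
      exact ⟨⟨0, zin z⟩, hz', Prod.ext rfl e⟩
  have hL : LM (HX X) = AddSubgroup.closure
      (Prod.fst '' ((X.image (ph l0 l1) : Finset _) : Set ((Ix k → ℤ) × ℤ))) := by
    rw [LM_HX, Finset.coe_image, Set.image_image]
    rfl
  have S := h1 (Ix k) (X.image (ph l0 l1)) (fun c => A * n ^ (wtI c))
    (2 * A * n ^ 5 * max l0.natAbs l1.natAbs) hb D hD hcl (LM (HX X)) hL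
  obtain ⟨M, hM⟩ : ∃ M : ℕ, M = max l0.natAbs l1.natAbs := ⟨_, rfl⟩
  rw [← hM] at S ⊢
  obtain ⟨ρ, hρ⟩ : ∃ ρ : ℕ, ρ = (LM (HX X)).relIndex (sat (LM (HX X))) := ⟨_, rfl⟩
  rw [← hρ] at S ⊢
  obtain ⟨K, hK⟩ : ∃ K : ℕ, K = (19 * k + 4).factorial * (A + 1) ^ (19 * k + 3) := ⟨_, rfl⟩
  rw [← hK]
  have pb : ∀ I : Finset (Ix k), (I.card + 1).factorial * (∏ c ∈ I, A * n ^ (wtI c)) ≤
      K * n ^ (∑ c ∈ I, wtI c) := fun I => by rw [hK]; exact prod_bound A n I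
  -- the first inequality
  have T1 := S I1 ∅ c1 i1 ⊥ 1 (fun x _ c _ _ => by simp)
  refine ⟨δ, T1.1, ?_, ?_, ?_, hk1, hk2⟩
  · have g1 := T1.2
    rw [one_pow, mul_one] at g1
    calc D * ρ * n ^ δ ≤ ((I1.card + 1).factorial * (∏ c ∈ I1, A * n ^ (wtI c)) *
          (2 * A * n ^ 5 * M)) * n ^ δ := Nat.mul_le_mul_right _ g1
      _ ≤ (K * n ^ (∑ c ∈ I1, wtI c) * (2 * A * n ^ 5 * M)) * n ^ δ :=
          Nat.mul_le_mul_right _ (Nat.mul_le_mul_right _ (pb I1))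
      _ = K * (2 * A) * n ^ (∑ c ∈ I1, wtI c + δ + 5) * M := by
          rw [pow_add, pow_add]; ring
      _ = K * (2 * A) * n ^ (34 * k + 11) * M := by rw [w1]
  · -- the second inequality
    obtain ⟨J, hJ⟩ : ∃ J : Finset (Ix k), J = Finset.univ.filter
      (fun c : Ix k => isS b3 c ∨ isS c3 c) := ⟨_, rfl⟩
    have hJ1 : ∀ c ∈ J, isS b3 c ∨ isS c3 c := fun c h => by
      rw [hJ, Finset.mem_filter] at h; exact h.2
    have T2 := S I2 J c2 i2 (Rad k (l0 : ℚ) (l1 : ℚ)) (l1.natAbs ^ 2) (by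
      intro x hx c _ hcJ
      have h3 : ¬ (isS b3 c ∨ isS c3 c) := fun h => hcJ (by
        rw [hJ, Finset.mem_filter]; exact ⟨Finset.mem_univ _, h⟩)
      have := (rad_dvd l0 l1 hc x hx c).1 h3
      rw [Nat.cast_pow, Int.natCast_natAbs, sq_abs]
      exact this)
    have g2 := T2.2
    have hj := j2 J hJ1
    have hl : 1 ≤ l1.natAbs := Int.natAbs_pos.mpr hl1
    have hp : l1.natAbs ^ (2 * (k - 2 * δ)) ≤ (l1.natAbs ^ 2) ^
        (dm (LQ (LM (HX X)) ⊓ Rad k (l0 : ℚ) (l1 : ℚ)) - (I2 ∩ J).card) := by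
      rw [← pow_mul]
      exact Nat.pow_le_pow_right hl (by omega)
    calc D * ρ * l1.natAbs ^ (2 * (k - 2 * δ))
        ≤ D * ρ * (l1.natAbs ^ 2) ^
          (dm (LQ (LM (HX X)) ⊓ Rad k (l0 : ℚ) (l1 : ℚ)) - (I2 ∩ J).card) :=
          Nat.mul_le_mul_left _ hp
      _ ≤ (I2.card + 1).factorial * (∏ c ∈ I2, A * n ^ (wtI c)) * (2 * A * n ^ 5 * M) := g2
      _ ≤ K * n ^ (∑ c ∈ I2, wtI c) * (2 * A * n ^ 5 * M) := Nat.mul_le_mul_right _ (pb I2)
      _ ≤ K * n ^ (34 * k + 6 + 3 * δ) * (2 * A * n ^ 5 * M) :=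
          Nat.mul_le_mul_right _ (Nat.mul_le_mul_left _ (Nat.pow_le_pow_right hn w2))
      _ = K * (2 * A) * n ^ (34 * k + 6 + 3 * δ + 5) * M := by rw [pow_add _ _ 5]; ring
      _ = K * (2 * A) * n ^ (34 * k + 11 + 3 * δ) * M := by
          have e : 34 * k + 6 + 3 * δ + 5 = 34 * k + 11 + 3 * δ := by ring
          rw [e]
  · -- the third inequality
    intro hl0
    have hl0' : (l0 : ℚ) ≠ 0 := by exact_mod_cast hl0
    obtain ⟨I3, c3', i3, w3, j3⟩ := hI3 hl0'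
    obtain ⟨J, hJ⟩ : ∃ J : Finset (Ix k), J = Finset.univ.filter
      (fun c : Ix k => isS a3 c ∨ isS b3 c) := ⟨_, rfl⟩
    have hJ1 : ∀ c ∈ J, isS a3 c ∨ isS b3 c := fun c h => by
      rw [hJ, Finset.mem_filter] at h; exact h.2
    have T3 := S I3 J c3' i3 (Rad k (l0 : ℚ) (l1 : ℚ)) (l0.natAbs ^ 2) (by
      intro x hx c _ hcJ
      have h3 : ¬ (isS a3 c ∨ isS b3 c) := fun h => hcJ (by
        rw [hJ, Finset.mem_filter]; exact ⟨Finset.mem_univ _, h⟩)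
      have := (rad_dvd l0 l1 hc x hx c).2 h3
      rw [Nat.cast_pow, Int.natCast_natAbs, sq_abs]
      exact this)
    have g3 := T3.2
    have hj := j3 J hJ1
    have hl : 1 ≤ l0.natAbs := Int.natAbs_pos.mpr hl0
    have hp : l0.natAbs ^ (2 * (k - 2 * δ)) ≤ (l0.natAbs ^ 2) ^
        (dm (LQ (LM (HX X)) ⊓ Rad k (l0 : ℚ) (l1 : ℚ)) - (I3 ∩ J).card) := by
      rw [← pow_mul]
      exact Nat.pow_le_pow_right hl (by omega)
    calc D * ρ * l0.natAbs ^ (2 * (k - 2 * δ))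
        ≤ D * ρ * (l0.natAbs ^ 2) ^
          (dm (LQ (LM (HX X)) ⊓ Rad k (l0 : ℚ) (l1 : ℚ)) - (I3 ∩ J).card) :=
          Nat.mul_le_mul_left _ hp
      _ ≤ (I3.card + 1).factorial * (∏ c ∈ I3, A * n ^ (wtI c)) * (2 * A * n ^ 5 * M) := g3
      _ ≤ K * n ^ (∑ c ∈ I3, wtI c) * (2 * A * n ^ 5 * M) := Nat.mul_le_mul_right _ (pb I3)
      _ ≤ K * n ^ (35 * k + 6 + 3 * δ) * (2 * A * n ^ 5 * M) :=
          Nat.mul_le_mul_right _ (Nat.mul_le_mul_left _ (Nat.pow_le_pow_right hn w3))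
      _ = K * (2 * A) * n ^ (35 * k + 6 + 3 * δ + 5) * M := by rw [pow_add _ _ 5]; ring
      _ = K * (2 * A) * n ^ (35 * k + 11 + 3 * δ) * M := by
          have e : 35 * k + 6 + 3 * δ + 5 = 35 * k + 11 + 3 * δ := by ring
          rw [e]

end Pool.Agent.SBG.H76
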